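import Pool.Agent.Helper58.VH.Ray
import Pool.Agent.V11187.VisualHull

set_option autoImplicit false

open Set Metric Topology
open Pool.Agent.V11187.VisualHull

namespace Pool.Agent.Helper58.VH

variable {ι : Type*} [Fintype ι] {E : Type*} [NormedAddCommGroup E] [NormedSpace ℝ E]
  [FiniteDimensional ℝ E]

theorem ray_compact (hcard : Fintype.card ι = Module.finrank ℝ E) [Nonempty ι]
    (S : ι → Set E) (hc : ∀ i, IsCompact (S i)) (hconv : ∀ i, Convex ℝ (S i))
    (hne : ∀ i, (S i).Nonempty) (x : E) (h0 : ∀ i, x ∉ S i) (hx : x ∈ visualHull (⋃ i, S i)) :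
    ∃ d : E, d ≠ 0 ∧ ∀ i, ∃ t : ℝ, 0 < t ∧ x + t • d ∈ S i := by
  refine common_ray_compact hcard (fun i => (fun y => x + y) ⁻¹' S i) (fun i => ?_)
    (fun i => (hconv i).translate_preimage_right x) (fun i => ?_) (fun i => ?_) (fun d hd => ?_)
  · exact (Homeomorph.addLeft x).isCompact_preimage.2 (hc i)
  · obtain ⟨s, hs⟩ := hne i
    exact ⟨s - x, by simpa using hs⟩
  · simpa using h0 i
  · obtain ⟨t, ht⟩ := hx d hd
    obtain ⟨i, hi⟩ := mem_iUnion.1 ht
    exact ⟨t, i, hi⟩

theorem ray_open (hcard : Fintype.card ι = Module.finrank ℝ E) [Nonempty ι]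
    (S : ι → Set E) (hc : ∀ i, IsOpen (S i)) (hconv : ∀ i, Convex ℝ (S i))
    (hne : ∀ i, (S i).Nonempty) (x : E) (h0 : ∀ i, x ∉ S i) (hx : x ∈ visualHull (⋃ i, S i)) :
    ∃ d : E, d ≠ 0 ∧ ∀ i, ∃ t : ℝ, 0 < t ∧ x + t • d ∈ S i := by
  classical
  -- the data on the sphere
  have hdata : ∀ d : E, d ∈ sphere (0 : E) 1 → ∃ (t r : ℝ) (i : ι) (u : Finset E), 0 < r ∧
      closedBall (x + t • d) r ⊆ convexHull ℝ (u : Set E) ∧ convexHull ℝ (u : Set E) ⊆ S i := by
    intro d hd
    have hd0 : d ≠ 0 := by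
      rintro rfl
      simp at hd
    obtain ⟨t, ht⟩ := hx d hd0
    obtain ⟨i, hi⟩ := mem_iUnion.1 ht
    obtain ⟨r, hr, hri⟩ := Metric.nhds_basis_closedBall.mem_iff.1 ((hc i).mem_nhds hi)
    obtain ⟨u, hu1, hu2⟩ := (convex_closedBall (x + t • d) r
      ).exists_subset_interior_convexHull_finset_of_isCompact (isCompact_closedBall _ _)
      ((hc i).mem_nhdsSet.2 hri)
    exact ⟨t, r, i, u, hr, hu1.trans interior_subset, hu2⟩
  choose! t r j u hr hsub hsub' using hdata
  set U : E → Set E := fun d => (fun d' => x + t d • d') ⁻¹' ball (x + t d • d) (r d) with hU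
  have hUo : ∀ d, IsOpen (U d) := fun d => by
    apply isOpen_ball.preimage
    fun_prop
  obtain ⟨F, hF, hcov⟩ := (isCompact_sphere (0 : E) 1).elim_nhds_subcover U (fun d hd =>
    (hUo d).mem_nhds (by
      simp only [hU, mem_preimage]
      exact mem_ball_self (hr d hd)))
  choose p hp using hne
  set T₀ : ι → Set E := fun i => {p i} ∪ ⋃ d ∈ F.filter (fun d => j d = i),
    (u d : Set E) with hT₀
  have hT₀c : ∀ i, (T₀ i).Finite := fun i =>
    (finite_singleton _).union ((F.filter (fun d => j d = i)).finite_toSet.biUnion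
      fun d _ => (u d).finite_toSet)
  have hT₀s : ∀ i, T₀ i ⊆ S i := by
    intro i y hy
    rcases hy with hy | hy
    · rw [mem_singleton_iff] at hy
      rw [hy]; exact hp i
    · simp only [mem_iUnion, Finset.mem_filter] at hy
      obtain ⟨d, ⟨hd, hdi⟩, hy⟩ := hy
      rw [← hdi]
      exact hsub' d (hF d hd) (subset_convexHull ℝ _ hy)
  set T : ι → Set E := fun i => convexHull ℝ (T₀ i) with hT
  have hTS : ∀ i, T i ⊆ S i := fun i => convexHull_min (hT₀s i) (hconv i)
  obtain ⟨d, hd, hd'⟩ := ray_compact hcard T (fun i => (hT₀c i).isCompact_convexHull ℝ)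
    (fun i => convex_convexHull ℝ _) (fun i => ⟨p i, subset_convexHull ℝ _ (Or.inl rfl)⟩) x
    (fun i hi => h0 i (hTS i hi)) (by
      intro d hd
      have hd1 : ‖d‖ ≠ 0 := norm_ne_zero_iff.2 hd
      have hmem : ‖d‖⁻¹ • d ∈ sphere (0 : E) 1 := by
        rw [mem_sphere_zero_iff_norm, norm_smul, norm_inv, norm_norm, inv_mul_cancel₀ hd1]
      have h1 := hcov hmem
      simp only [mem_iUnion] at h1
      obtain ⟨e, heF, heU⟩ := h1
      refine ⟨t e * ‖d‖⁻¹, mem_iUnion.2 ⟨j e, ?_⟩⟩
      have h2 : convexHull ℝ (u e : Set E) ⊆ T (j e) := by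
        apply convexHull_mono
        intro y hy
        refine Or.inr ?_
        simp only [mem_iUnion, Finset.mem_filter]
        exact ⟨e, ⟨heF, rfl⟩, hy⟩
      apply h2
      simp only [hU, mem_preimage] at heU
      rw [mul_smul]
      exact hsub e (hF e heF) (ball_subset_closedBall heU))
  exact ⟨d, hd, fun i => by
    obtain ⟨s, hs, hsi⟩ := hd' i
    exact ⟨s, hs, hTS i hsi⟩⟩

omit [Fintype ι] [FiniteDimensional ℝ E] in
/-- A point of the visual hull can be moved along a common ray. -/
theorem move (S : ι → Set E) (hconv : ∀ i, Convex ℝ (S i)) (x d : E)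
    (hx : x ∈ visualHull (⋃ i, S i)) (t : ι → ℝ) (ht : ∀ i, 0 < t i ∧ x + t i • d ∈ S i)
    (τ : ℝ) (h0 : 0 ≤ τ) (hτ : ∀ i, τ ≤ t i) : x + τ • d ∈ visualHull (⋃ i, S i) := by
  intro e he
  obtain ⟨s, hs⟩ := hx e he
  obtain ⟨i, hi⟩ := mem_iUnion.1 hs
  obtain ⟨hti, hi'⟩ := ht i
  refine ⟨(1 - τ / t i) * s, mem_iUnion.2 ⟨i, ?_⟩⟩
  have h1 : 0 ≤ τ / t i := div_nonneg h0 hti.le
  have h2 : τ / t i ≤ 1 := by
    rw [div_le_one hti]; exact hτ i
  have h3 := hconv i hi hi' (a := 1 - τ / t i) (b := τ / t i) (by linarith) h1 (by ring)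
  convert h3 using 1
  rw [smul_add, smul_add, smul_smul, smul_smul, div_mul_cancel₀ _ hti.ne', sub_smul, one_smul]
  abel

omit [FiniteDimensional ℝ E] in
theorem subset_visualHull (S : Set E) : S ⊆ visualHull S := fun x hx d _ => ⟨0, by simpa using hx⟩

/-- **Main theorem.** -/
theorem numComponents_eq (hcard : Fintype.card ι = Module.finrank ℝ E) [Nonempty ι]
    (S : ι → Set E) (hb : ∀ i, IsBody (S i)) (hsep : StrictlySeparated S)
    (hS : (∀ i, IsClosed (S i)) ∨ (∀ i, IsOpen (S i))) :
    numComponents (visualHull (⋃ i, S i)) = Fintype.card ι := by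
  classical
  have hconv : ∀ i, Convex ℝ (S i) := fun i => (hb i).2.1
  have hne : ∀ i, (S i).Nonempty := fun i => (hb i).2.2.mono interior_subset
  have hray : ∀ x, (∀ i, x ∉ S i) → x ∈ visualHull (⋃ i, S i) →
      ∃ d : E, d ≠ 0 ∧ ∀ i, ∃ t : ℝ, 0 < t ∧ x + t • d ∈ S i := by
    intro x h0 hx
    rcases hS with hS | hS
    · exact ray_compact hcard S (fun i => Metric.isCompact_of_isClosed_isBounded (hS i) (hb i).1)
        hconv hne x h0 hx
    · exact ray_open hcard S hS hconv hne x h0 hx
  -- separating functionals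
  have hsep' : ∀ i j, i ≠ j → ∃ (f : E →L[ℝ] ℝ) (c : ℝ),
      (∀ x ∈ S i, f x < c) ∧ (∀ x ∈ S j, c < f x) := fun i j hij => by
    obtain ⟨f, c, _, h1, h2⟩ := hsep i j hij
    exact ⟨f, c, h1, h2⟩
  choose! f c hf1 hf2 using hsep'
  set P := visualHull (⋃ i, S i) with hP
  -- the pieces
  set Q : ι → Set P := fun i => {x | ∀ j, j ≠ i → f i j x < c i j ∧ c j i < f j i x} with hQ
  have hQo : ∀ i, IsOpen (Q i) := by
    intro i
    have : Q i = ⋂ j, ⋂ (_ : j ≠ i), {x : P | f i j x < c i j ∧ c j i < f j i x} := by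
      ext x; simp [hQ]
    rw [this]
    refine isOpen_iInter_of_finite fun j => isOpen_iInter_of_finite fun _ => ?_
    exact (isOpen_lt ((f i j).continuous.comp continuous_subtype_val) continuous_const).inter
      (isOpen_lt continuous_const ((f j i).continuous.comp continuous_subtype_val))
  have hQd : ∀ i j, i ≠ j → ∀ x, x ∈ Q i → x ∈ Q j → False := by
    intro i j hij x hi hj
    have h1 := (hi j hij.symm).1
    have h2 := (hj i hij).2
    linarith
  have hSQ : ∀ i (x : P), (x : E) ∈ S i → x ∈ Q i := by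
    intro i x hx j hj
    exact ⟨hf1 i j hj.symm _ hx, hf2 j i hj _ hx⟩
  have hSP : ∀ i x, x ∈ S i → x ∈ P := fun i x hx =>
    subset_visualHull _ (mem_iUnion.2 ⟨i, hx⟩)
  -- every point is joined to the body of its piece
  have hjoin : ∀ x : P, ∃ i, x ∈ Q i ∧ ∃ y : P, (y : E) ∈ S i ∧
      ∃ C : Set P, IsPreconnected C ∧ x ∈ C ∧ y ∈ C := by
    intro x
    by_cases hx : ∃ i, (x : E) ∈ S i
    · obtain ⟨i, hi⟩ := hx
      exact ⟨i, hSQ i x hi, x, hi, {x}, isPreconnected_singleton, rfl, rfl⟩
    · push Not at hx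
      obtain ⟨d, hd, ht⟩ := hray x hx x.2
      choose t ht using ht
      obtain ⟨i, -, hi⟩ := Finset.exists_min_image (Finset.univ : Finset ι) t Finset.univ_nonempty
      have hi' : ∀ j, t i ≤ t j := fun j => hi j (Finset.mem_univ j)
      have hmem : ∀ τ : ℝ, 0 ≤ τ → τ ≤ t i → (x : E) + τ • d ∈ P := fun τ h0 h1 =>
        move S hconv x d x.2 t ht τ h0 (fun j => h1.trans (hi' j))
      refine ⟨i, ?_, ⟨(x : E) + t i • d, hSP i _ (ht i).2⟩, (ht i).2, ?_⟩
      · intro j hj
        have key : ∀ (g : E →L[ℝ] ℝ) (a : ℝ), g ((x : E) + t i • d) < a →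
            a < g ((x : E) + t j • d) → g x < a := by
          intro g a h1 h2
          rw [map_add, map_smul, smul_eq_mul] at h1 h2
          have h3 : 0 ≤ (t j - t i) := sub_nonneg.2 (hi' j)
          have h4 : 0 < (t j - t i) * g d := by linarith
          have h5 : 0 < g d := by
            by_contra h
            push Not at h
            nlinarith
          have h6 := mul_pos (ht i).1 h5
          linarith
        refine ⟨key (f i j) (c i j) (hf1 i j hj.symm _ (ht i).2) (hf2 i j hj.symm _ (ht j).2), ?_⟩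
        have := key (-(f j i)) (-(c j i)) (by
          have := hf2 j i hj _ (ht i).2
          rw [neg_apply]; linarith) (by
          have := hf1 j i hj _ (ht j).2
          rw [neg_apply]; linarith)
        rw [neg_apply] at this
        linarith
      · refine ⟨range (fun τ : Icc (0 : ℝ) (t i) =>
          (⟨(x : E) + (τ : ℝ) • d, hmem τ τ.2.1 τ.2.2⟩ : P)), ?_, ?_, ?_⟩
        · have : PreconnectedSpace (Icc (0 : ℝ) (t i)) :=
            Subtype.preconnectedSpace isPreconnected_Icc
          apply isPreconnected_range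
          apply Continuous.subtype_mk
          fun_prop
        · refine ⟨⟨0, le_rfl, (ht i).1.le⟩, ?_⟩
          apply Subtype.ext
          simp
        · exact ⟨⟨t i, (ht i).1.le, le_rfl⟩, rfl⟩
  choose col hcolQ y hyS C hC hxC hyC using hjoin
  have hcol_of : ∀ i (x : P), x ∈ Q i → col x = i := by
    intro i x hx
    by_contra h
    exact hQd _ _ h x (hcolQ x) hx
  have hcolc : ∀ i, IsOpen (col ⁻¹' {i}) := by
    intro i
    have : col ⁻¹' {i} = Q i := by
      ext x
      constructor
      · intro h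
        have := hcolQ x
        rw [show col x = i from h] at this
        exact this
      · exact hcol_of i x
    rw [this]
    exact hQo i
  let : TopologicalSpace ι := ⊥
  have : DiscreteTopology ι := ⟨rfl⟩
  have hcont : Continuous col := by
    rw [continuous_discrete_rng]
    exact hcolc
  -- the bijection
  have hconn : ∀ x x' : P, col x = col x' → (x : ConnectedComponents P) = x' := by
    intro x x' h
    have toy : ∀ x : P, (x : ConnectedComponents P) = y x := by
      intro x
      rw [ConnectedComponents.coe_eq_coe']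
      exact (hC x).subset_connectedComponent (hyC x) (hxC x)
    rw [toy x, toy x']
    have hy1 : (y x : E) ∈ S (col x) := hyS x
    have hy2 : (y x' : E) ∈ S (col x) := by rw [h]; exact hyS x'
    rw [ConnectedComponents.coe_eq_coe']
    have hpre : IsPreconnected ((fun s : S (col x) => (⟨s, hSP _ _ s.2⟩ : P)) '' univ) := by
      have : PreconnectedSpace (S (col x)) :=
        Subtype.preconnectedSpace (hconv (col x)).isPreconnected
      exact isPreconnected_univ.image _
        (Continuous.subtype_mk continuous_subtype_val _).continuousOn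
    exact hpre.subset_connectedComponent ⟨⟨_, hy2⟩, mem_univ _, Subtype.ext rfl⟩
      ⟨⟨_, hy1⟩, mem_univ _, Subtype.ext rfl⟩
  have hbij : Function.Bijective hcont.connectedComponentsLift := by
    constructor
    · intro a b hab
      obtain ⟨x, rfl⟩ := ConnectedComponents.surjective_coe a
      obtain ⟨x', rfl⟩ := ConnectedComponents.surjective_coe b
      rw [Continuous.connectedComponentsLift_apply_coe,
        Continuous.connectedComponentsLift_apply_coe] at hab
      exact hconn x x' hab
    · intro i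
      obtain ⟨s, hs⟩ := hne i
      refine ⟨((⟨s, hSP i s hs⟩ : P) : ConnectedComponents P), ?_⟩
      rw [Continuous.connectedComponentsLift_apply_coe]
      exact hcol_of i _ (hSQ i _ hs)
  unfold numComponents
  rw [ENat.card_congr (Equiv.ofBijective _ hbij), ENat.card_eq_coe_fintype_card]

end Pool.Agent.Helper58.VH
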