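import Mathlib

set_option autoImplicit false

/-!
# Common rays

Let `S i` be as many compact convex sets as the dimension of the space, none of them containing
`0`, such that every line through `0` meets one of them. Then some ray from `0` meets all of them.
-/

open Set Metric

namespace Pool.Agent.Helper58.VH

variable {ι : Type*} [Fintype ι] {E : Type*} [NormedAddCommGroup E] [NormedSpace ℝ E]
  [FiniteDimensional ℝ E]

/-- Compact convex sets: if every line through `0` meets one of the sets, then a ray from `0`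
meets all of them. -/
theorem common_ray_compact (hcard : Fintype.card ι = Module.finrank ℝ E) [Nonempty ι]
    (S : ι → Set E) (hc : ∀ i, IsCompact (S i)) (hconv : ∀ i, Convex ℝ (S i))
    (hne : ∀ i, (S i).Nonempty) (h0 : ∀ i, (0 : E) ∉ S i)
    (hline : ∀ d : E, d ≠ 0 → ∃ t : ℝ, ∃ i, t • d ∈ S i) :
    ∃ d : E, d ≠ 0 ∧ ∀ i, ∃ t : ℝ, 0 < t ∧ t • d ∈ S i := by
  classical
  by_contra hno
  -- the compact convex set `K` of all `(l i • s i)`
  set F : (ι → ℝ) × (ι → E) → (ι → E) := fun p i => p.1 i • p.2 i with hF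
  have hFc : Continuous F := by
    apply continuous_pi
    intro i
    exact ((continuous_apply i).comp continuous_fst).smul ((continuous_apply i).comp continuous_snd)
  set K : Set (ι → E) := F '' (stdSimplex ℝ ι ×ˢ (univ.pi S)) with hK
  have hKc : IsCompact K := ((isCompact_stdSimplex ℝ ι).prod (isCompact_univ_pi hc)).image hFc
  have hKconv : Convex ℝ K := by
    rintro _ ⟨⟨l, s⟩, ⟨hl, hs⟩, rfl⟩ _ ⟨⟨l', s'⟩, ⟨hl', hs'⟩, rfl⟩ a b ha hb hab
    simp only at hl hs hl' hs'
    -- the combined point
    have key : ∀ i, ∃ s'' ∈ S i, (a * l i + b * l' i) • s'' = a • (l i • s i) + b • (l' i • s' i) := by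
      intro i
      have h1 : 0 ≤ a * l i := mul_nonneg ha (hl.1 i)
      have h2 : 0 ≤ b * l' i := mul_nonneg hb (hl'.1 i)
      rcases eq_or_lt_of_le (add_nonneg h1 h2) with h | h
      · refine ⟨s i, hs i (mem_univ i), ?_⟩
        have e1 : a * l i = 0 := by linarith
        have e2 : b * l' i = 0 := by linarith
        rw [smul_smul, smul_smul, e1, e2]
        simp
      · refine ⟨((a * l i) / (a * l i + b * l' i)) • s i + ((b * l' i) / (a * l i + b * l' i)) • s' i,
          hconv i (hs i (mem_univ i)) (hs' i (mem_univ i)) (by positivity) (by positivity) ?_, ?_⟩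
        · rw [← add_div, div_self h.ne']
        · rw [smul_add, smul_smul, smul_smul, mul_div_cancel₀ _ h.ne', mul_div_cancel₀ _ h.ne',
            smul_smul, smul_smul]
    choose s'' hs'' he using key
    refine ⟨(fun i => a * l i + b * l' i, s''), ⟨?_, fun i _ => hs'' i⟩, ?_⟩
    · refine ⟨fun i => add_nonneg (mul_nonneg ha (hl.1 i)) (mul_nonneg hb (hl'.1 i)), ?_⟩
      simp only
      rw [Finset.sum_add_distrib, ← Finset.mul_sum, ← Finset.mul_sum, hl.2, hl'.2]
      linarith
    · funext i
      exact he i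
  -- the diagonal
  set Δ : Submodule ℝ (ι → E) := LinearMap.range (LinearMap.pi fun _ : ι => (LinearMap.id : E →ₗ[ℝ] E))
    with hΔ
  have memΔ : ∀ y : E, (fun _ : ι => y) ∈ Δ := fun y => ⟨y, rfl⟩
  have hdisj : Disjoint K (Δ : Set (ι → E)) := by
    rw [Set.disjoint_left]
    rintro _ ⟨⟨l, s⟩, ⟨hl, hs⟩, rfl⟩ ⟨y, hy⟩
    simp only at hl hs
    have hy' : ∀ i, l i • s i = y := fun i => (congrFun hy i).symm
    have hl0 : ∀ i, 0 < l i := by
      intro i
      rcases eq_or_lt_of_le (hl.1 i) with h | h
      · exfalso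
        have hy0 : y = 0 := by rw [← hy' i, ← h, zero_smul]
        have hall : ∀ j, l j = 0 := by
          intro j
          have h1 := hy' j
          rw [hy0] at h1
          rcases smul_eq_zero.1 h1 with h2 | h2
          · exact h2
          · exact absurd (h2 ▸ hs j (mem_univ j)) (h0 j)
        have := hl.2
        simp [hall] at this
      · exact h
    apply hno
    obtain ⟨i₀⟩ := ‹Nonempty ι›
    refine ⟨y, ?_, fun i => ⟨(l i)⁻¹, inv_pos.2 (hl0 i), ?_⟩⟩
    · intro hy0
      have h1 := hy' i₀
      rw [hy0] at h1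
      rcases smul_eq_zero.1 h1 with h2 | h2
      · exact (hl0 i₀).ne' h2
      · exact h0 i₀ (h2 ▸ hs i₀ (mem_univ i₀))
    · rw [← hy' i, inv_smul_smul₀ (hl0 i).ne']
      exact hs i (mem_univ i)
  obtain ⟨f, u, v, hfK, huv, hfΔ⟩ := geometric_hahn_banach_compact_closed hKconv hKc
    (Δ.convex) (Submodule.closed_of_finiteDimensional Δ) hdisj
  have hf0 : ∀ y ∈ Δ, f y = 0 := by
    intro y hy
    by_contra hne0
    have h1 := hfΔ (((v - 1) / f y) • y) (Δ.smul_mem _ hy)
    rw [map_smul, smul_eq_mul, div_mul_cancel₀ _ hne0] at h1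
    linarith
  have hv : v < 0 := by
    have := hfΔ 0 Δ.zero_mem
    simpa using this
  -- the components of `f`
  set φ : ι → (E →ₗ[ℝ] ℝ) := fun i => (f : (ι → E) →ₗ[ℝ] ℝ) ∘ₗ LinearMap.single ℝ (fun _ : ι => E) i
    with hφ
  have hφS : ∀ i, ∀ s ∈ S i, φ i s < 0 := by
    intro i s hs
    choose s₀ hs₀ using hne
    have h1 : Pi.single i s ∈ K := by
      refine ⟨(Pi.single i 1, Function.update s₀ i s), ⟨single_mem_stdSimplex ℝ i, ?_⟩, ?_⟩
      · intro j _
        by_cases h : j = i
        · subst h; simpa using hs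
        · simpa [h] using hs₀ j
      · funext j
        by_cases h : j = i
        · subst h; simp [hF]
        · simp [hF, h]
    have h2 := hfK _ h1
    have h3 : φ i s = f (Pi.single i s) := rfl
    rw [h3]
    linarith
  have hφsum : ∀ y, ∑ i, φ i y = 0 := by
    intro y
    have h1 : ∑ i, φ i y = f (fun _ => y) := by
      have h2 : (fun _ : ι => y) = ∑ i, Pi.single i y := by
        rw [Finset.univ_sum_single]
      rw [h2, map_sum]
      rfl
    rw [h1]
    exact hf0 _ (memΔ y)
  -- common kernel
  set Ψ : E →ₗ[ℝ] (ι → ℝ) := LinearMap.pi φ with hΨ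
  have hker : ∃ w : E, w ≠ 0 ∧ Ψ w = 0 := by
    by_contra hcon
    push Not at hcon
    have hinj : Function.Injective Ψ := by
      rw [injective_iff_map_eq_zero]
      intro a ha
      by_contra h
      exact hcon a h ha
    have hsurj : Function.Surjective Ψ := by
      have h1 : Module.finrank ℝ E = Module.finrank ℝ (ι → ℝ) := by
        rw [Module.finrank_fintype_fun_eq_card, hcard]
      exact (LinearMap.injective_iff_surjective_of_finrank_eq_finrank h1).1 hinj
    obtain ⟨y, hy⟩ := hsurj (fun _ => 1)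
    have h1 := hφsum y
    have h2 : ∀ i, φ i y = 1 := fun i => congrFun hy i
    simp [h2] at h1
  obtain ⟨w, hw0, hw⟩ := hker
  obtain ⟨t, i, hti⟩ := hline w hw0
  have h1 := hφS i _ hti
  rw [map_smul, show φ i w = 0 from congrFun hw i, smul_zero] at h1
  exact lt_irrefl _ h1

end Pool.Agent.Helper58.VH
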